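import Pool.Agent.helper47.SPI.Spec

/-!
# Project SPI, row SCM: Cauchy-Schwarz in the residue classes modulo `m`
-/

set_option autoImplicit false

namespace Pool.Agent.SPI

open Finset Pool.Agent.helper85.PG
open scoped ComplexConjugate

theorem SCM_form (D : Finset ℕ) (h : ℕ) (c : ℕ → ℕ → ℂ) (a : ℕ → ℂ) :
    ∑ x ∈ range h, ‖∑ y ∈ D, c x y * a y‖ ^ 2 ≤
      ∑ y ∈ D, ‖a y‖ ^ 2 * ∑ y' ∈ D, ‖∑ x ∈ range h, c x y * conj (c x y')‖ := by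
  have h1 : ((∑ x ∈ range h, ‖∑ y ∈ D, c x y * a y‖ ^ 2 : ℝ) : ℂ) =
      ∑ y ∈ D, ∑ y' ∈ D, (a y * conj (a y')) * ∑ x ∈ range h, c x y * conj (c x y') := by
    rw [Complex.ofReal_sum]
    have h2 : ∀ x ∈ range h, ((‖∑ y ∈ D, c x y * a y‖ ^ 2 : ℝ) : ℂ) =
        ∑ y ∈ D, ∑ y' ∈ D, (a y * conj (a y')) * (c x y * conj (c x y')) := by
      intro x _
      rw [Complex.ofReal_pow, ← Complex.mul_conj', map_sum, Finset.sum_mul_sum]
      refine sum_congr rfl fun y _ => sum_congr rfl fun y' _ => ?_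
      rw [map_mul]
      ring
    rw [sum_congr rfl h2, Finset.sum_comm]
    refine sum_congr rfl fun y _ => ?_
    rw [Finset.sum_comm]
    refine sum_congr rfl fun y' _ => ?_
    rw [Finset.mul_sum]
  have h3 : ∑ x ∈ range h, ‖∑ y ∈ D, c x y * a y‖ ^ 2 ≤
      ∑ y ∈ D, ∑ y' ∈ D, ‖a y‖ * ‖a y'‖ * ‖∑ x ∈ range h, c x y * conj (c x y')‖ := by
    calc ∑ x ∈ range h, ‖∑ y ∈ D, c x y * a y‖ ^ 2
        = ‖((∑ x ∈ range h, ‖∑ y ∈ D, c x y * a y‖ ^ 2 : ℝ) : ℂ)‖ := by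
          rw [Complex.norm_real, Real.norm_of_nonneg (sum_nonneg fun x _ => sq_nonneg _)]
      _ ≤ ∑ y ∈ D, ∑ y' ∈ D, ‖a y‖ * ‖a y'‖ * ‖∑ x ∈ range h, c x y * conj (c x y')‖ := by
          rw [h1]
          refine (norm_sum_le _ _).trans (sum_le_sum fun y _ => ?_)
          refine (norm_sum_le _ _).trans (sum_le_sum fun y' _ => ?_)
          rw [norm_mul, norm_mul, Complex.norm_conj]
  have hsym : ∀ y y', ‖∑ x ∈ range h, c x y * conj (c x y')‖ =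
      ‖∑ x ∈ range h, c x y' * conj (c x y)‖ := by
    intro y y'
    rw [← Complex.norm_conj, map_sum]
    congr 1
    refine sum_congr rfl fun x _ => ?_
    rw [map_mul, Complex.conj_conj, mul_comm]
  have h4 : ∑ y ∈ D, ∑ y' ∈ D, ‖a y‖ * ‖a y'‖ * ‖∑ x ∈ range h, c x y * conj (c x y')‖ ≤
      ∑ y ∈ D, ∑ y' ∈ D, (‖a y‖ ^ 2 * ‖∑ x ∈ range h, c x y * conj (c x y')‖ +
        ‖a y'‖ ^ 2 * ‖∑ x ∈ range h, c x y * conj (c x y')‖) / 2 := by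
    refine sum_le_sum fun y _ => sum_le_sum fun y' _ => ?_
    have h5 : 0 ≤ ‖∑ x ∈ range h, c x y * conj (c x y')‖ := norm_nonneg _
    nlinarith [mul_nonneg (sq_nonneg (‖a y‖ - ‖a y'‖)) h5]
  have h6 : ∑ y ∈ D, ∑ y' ∈ D, ‖a y'‖ ^ 2 * ‖∑ x ∈ range h, c x y * conj (c x y')‖ =
      ∑ y ∈ D, ∑ y' ∈ D, ‖a y‖ ^ 2 * ‖∑ x ∈ range h, c x y * conj (c x y')‖ := by
    rw [Finset.sum_comm]
    refine sum_congr rfl fun y _ => sum_congr rfl fun y' _ => ?_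
    rw [hsym]
  have h7 : ∑ y ∈ D, ∑ y' ∈ D, (‖a y‖ ^ 2 * ‖∑ x ∈ range h, c x y * conj (c x y')‖ +
        ‖a y'‖ ^ 2 * ‖∑ x ∈ range h, c x y * conj (c x y')‖) / 2 =
      ∑ y ∈ D, ∑ y' ∈ D, ‖a y‖ ^ 2 * ‖∑ x ∈ range h, c x y * conj (c x y')‖ := by
    have h8 : ∀ y ∈ D, ∑ y' ∈ D, (‖a y‖ ^ 2 * ‖∑ x ∈ range h, c x y * conj (c x y')‖ +
        ‖a y'‖ ^ 2 * ‖∑ x ∈ range h, c x y * conj (c x y')‖) / 2 =
        (∑ y' ∈ D, ‖a y‖ ^ 2 * ‖∑ x ∈ range h, c x y * conj (c x y')‖ +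
        ∑ y' ∈ D, ‖a y'‖ ^ 2 * ‖∑ x ∈ range h, c x y * conj (c x y')‖) / 2 := by
      intro y _
      rw [← sum_add_distrib, sum_div]
    rw [sum_congr rfl h8, ← sum_div, sum_add_distrib, h6]
    ring
  refine h3.trans (h4.trans (le_of_eq ?_))
  rw [h7]
  refine sum_congr rfl fun y _ => ?_
  rw [Finset.mul_sum]

theorem SCM : SCM_stmt := by
  intro h m c a b hm
  have h1 : ∑ x ∈ range h, ∑ y ∈ range h, c x y * a y * b x =
      ∑ z ∈ range m ×ˢ range h, b z.2 * ∑ y ∈ (range h).filter (fun y => y % m = z.1),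
        c z.2 y * a y := by
    rw [sum_product_right]
    refine sum_congr rfl fun x _ => ?_
    show ∑ y ∈ range h, c x y * a y * b x =
      ∑ ρ ∈ range m, b x * ∑ y ∈ (range h).filter (fun y => y % m = ρ), c x y * a y
    rw [← Finset.mul_sum, Finset.sum_fiberwise_of_maps_to (fun y _ => mem_range.2 (Nat.mod_lt y hm)),
      Finset.mul_sum]
    refine sum_congr rfl fun y _ => ?_
    ring
  have h2 : ‖∑ x ∈ range h, ∑ y ∈ range h, c x y * a y * b x‖ ≤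
      ∑ z ∈ range m ×ˢ range h, ‖b z.2‖ *
        ‖∑ y ∈ (range h).filter (fun y => y % m = z.1), c z.2 y * a y‖ := by
    rw [h1]
    refine (norm_sum_le _ _).trans (sum_le_sum fun z _ => ?_)
    rw [norm_mul]
  have h3 : (∑ z ∈ range m ×ˢ range h, ‖b z.2‖ *
        ‖∑ y ∈ (range h).filter (fun y => y % m = z.1), c z.2 y * a y‖) ^ 2 ≤
      (∑ z ∈ range m ×ˢ range h, ‖b z.2‖ ^ 2) *
        ∑ z ∈ range m ×ˢ range h,
          ‖∑ y ∈ (range h).filter (fun y => y % m = z.1), c z.2 y * a y‖ ^ 2 :=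
    Finset.sum_mul_sq_le_sq_mul_sq _ _ _
  have h4 : ∑ z ∈ range m ×ˢ range h, ‖b z.2‖ ^ 2 = (m : ℝ) * ∑ x ∈ range h, ‖b x‖ ^ 2 := by
    rw [sum_product]
    show ∑ _ρ ∈ range m, ∑ x ∈ range h, ‖b x‖ ^ 2 = (m : ℝ) * ∑ x ∈ range h, ‖b x‖ ^ 2
    rw [sum_const, card_range, nsmul_eq_mul]
  have h5 : ∑ z ∈ range m ×ˢ range h,
      ‖∑ y ∈ (range h).filter (fun y => y % m = z.1), c z.2 y * a y‖ ^ 2 ≤
      ∑ y ∈ range h, ‖a y‖ ^ 2 * ∑ y' ∈ (range h).filter (fun y' => y' % m = y % m),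
        ‖∑ x ∈ range h, c x y * conj (c x y')‖ := by
    rw [sum_product]
    calc ∑ ρ ∈ range m, ∑ x ∈ range h,
        ‖∑ y ∈ (range h).filter (fun y => y % m = ρ), c x y * a y‖ ^ 2
        ≤ ∑ ρ ∈ range m, ∑ y ∈ (range h).filter (fun y => y % m = ρ), ‖a y‖ ^ 2 *
          ∑ y' ∈ (range h).filter (fun y' => y' % m = ρ),
            ‖∑ x ∈ range h, c x y * conj (c x y')‖ :=
          sum_le_sum fun ρ _ => SCM_form _ h c a
      _ = ∑ ρ ∈ range m, ∑ y ∈ (range h).filter (fun y => y % m = ρ), ‖a y‖ ^ 2 *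
          ∑ y' ∈ (range h).filter (fun y' => y' % m = y % m),
            ‖∑ x ∈ range h, c x y * conj (c x y')‖ := by
          refine sum_congr rfl fun ρ _ => sum_congr rfl fun y hy => ?_
          rw [(mem_filter.1 hy).2]
      _ = _ := Finset.sum_fiberwise_of_maps_to (fun y _ => mem_range.2 (Nat.mod_lt y hm)) _
  have h6 : 0 ≤ ∑ x ∈ range h, ‖b x‖ ^ 2 := sum_nonneg fun x _ => sq_nonneg _
  have h7 : (0 : ℝ) ≤ m := Nat.cast_nonneg m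
  calc ‖∑ x ∈ range h, ∑ y ∈ range h, c x y * a y * b x‖ ^ 2
      ≤ (∑ z ∈ range m ×ˢ range h, ‖b z.2‖ *
        ‖∑ y ∈ (range h).filter (fun y => y % m = z.1), c z.2 y * a y‖) ^ 2 :=
        pow_le_pow_left₀ (norm_nonneg _) h2 2
    _ ≤ _ := h3
    _ ≤ ((m : ℝ) * ∑ x ∈ range h, ‖b x‖ ^ 2) *
        ∑ y ∈ range h, ‖a y‖ ^ 2 * ∑ y' ∈ (range h).filter (fun y' => y' % m = y % m),
        ‖∑ x ∈ range h, c x y * conj (c x y')‖ := by
        rw [h4]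
        exact mul_le_mul_of_nonneg_left h5 (mul_nonneg h7 h6)
    _ = _ := by ring

end Pool.Agent.SPI
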